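import Pool.Agent.H20.SPL.NullAdditiveProductProof

/-!
# Products of null-additive sets of reals (second question of the problem)

If `X, Y ⊆ ℝ` are null-additive then `X × Y ⊆ ℝ × ℝ` is null-additive.

Sketch.  Fix a Lebesgue null set `N` of the plane and cover it infinitely often by squares of
finite total measure.  Choose scales `q 0 ∣ q 1 ∣ ...` with `q (n+1) = q n * p n`, where `p n` is a
prime congruent to `1` modulo `2 ^ n` and so large that the squares number `< l n` are coarser than
`1 / q (n+1)`, where `l n` was chosen so that the squares number `≥ l n` have tiny total measure
compared with `q n`.  Let `J n` be the group of `2 ^ n`-th power residues modulo `p n`; by the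
elementary bound `√p` for its Fourier coefficients, `S + J n` fills half of `ZMod (p n)` as soon as
`S` has `8 * 4 ^ n` elements.  The set of reals which are infinitely often close to
`j / q (n+1)` with `j mod p n ∈ J n` is null; as `X` is null-additive, Baire category and the Lebesgue
density theorem show that `X` is a countable union of sets having at most `8 * 4 ^ n` residues
`⌊q (n+1) x⌋ mod p n` for all large `n`.  The same holds for `Y`, and this is enough to see that
`(X × Y) + N` is null by the Borel-Cantelli lemma.
-/

namespace Pool.Agent.Results.MP_52c2ea_lc.NullAdditiveProduct

open MeasureTheory Set Filter Topology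
open scoped ENNReal Pointwise

/-- **Question 2, affirmative answer.**  The product of two null-additive sets of reals is a
null-additive subset of the plane. -/
theorem result (X Y : Set ℝ)
    (hX : ∀ N : Set ℝ, volume N = 0 → volume (X + N) = 0)
    (hY : ∀ N : Set ℝ, volume N = 0 → volume (Y + N) = 0) :
    ∀ N : Set (ℝ × ℝ), volume N = 0 → volume ((X ×ˢ Y) + N) = 0 :=
  result_proof X Y hX hY

end Pool.Agent.Results.MP_52c2ea_lc.NullAdditiveProduct
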